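import Pool.Agent.W805.DWMain

set_option autoImplicit false

open Filter Topology Set
open Pool.Agent.W805.DW

namespace Pool.Agent.Results.MP_4ccfbf_an.AbstractRateSharp

/-- There are Hilbert spaces `H`, `Y`, a nonnegative self-adjoint operator `A` with compact
resolvent on `H` and `B ∈ L(Y, H)` such that the Schrödinger system is observable in some time, but
the damped wave system is not stable at any rate `f` with `f(t) = o(t^{-1/2})`, in particular not at
rate `t^{-α}` for any `α > 1/2`. -/
theorem result :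
    ∃ (H Y : Type) (_ : NormedAddCommGroup H) (_ : InnerProductSpace ℂ H) (_ : CompleteSpace H)
      (_ : NormedAddCommGroup Y) (_ : InnerProductSpace ℂ Y) (_ : CompleteSpace Y)
      (A S : H →ₗ.[ℂ] H) (B : Y →L[ℂ] H),
      IsSelfAdjoint A ∧ Nonneg A ∧ Pool.Agent.Helper421.CompactRes.HasCompactResolvent A ∧
      IsSqrt A S ∧ (∃ T : ℝ, 0 < T ∧ Observable A B T) ∧
      (∀ f : ℝ → ℝ, Tendsto (fun t => f t * Real.sqrt t) atTop (𝓝 0) → ¬ StableAt A S B f) ∧
      (∀ α : ℝ, 1 / 2 < α → ¬ StableAt A S B (fun t => t ^ (-α))) := by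
  refine ⟨L2 (ℕ × Bool), L2 ℕ, inferInstance, inferInstance, inferInstance, inferInstance,
    inferInstance, inferInstance, AA, SS, B, dop_selfAdjoint _, dop_nonneg _ (fun i => ?_),
    dop_compactResolvent _ (fun i => ?_) (ev_tendsto _ mus_tendsto), SS_isSqrt,
    ⟨Real.pi, Real.pi_pos, observable _⟩, notStable, fun α hα => notStable _ ?_⟩
  · exact zero_le_one.trans (ev_ge i)
  · exact zero_le_one.trans (ev_ge i)
  · have h1 : Tendsto (fun t : ℝ => t ^ (-(α - 1 / 2))) atTop (𝓝 0) :=
      tendsto_rpow_neg_atTop (by linarith)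
    refine h1.congr' ?_
    filter_upwards [eventually_gt_atTop 0] with t ht
    rw [Real.sqrt_eq_rpow, ← Real.rpow_add ht]
    congr 1
    ring

end Pool.Agent.Results.MP_4ccfbf_an.AbstractRateSharp
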